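import Pool.Agent.H12R3.VR.Stmts

/-! # TaskIso (helper192) -/

set_option autoImplicit false

open Filter Topology

namespace H12VR

namespace IsoTask

abbrev E2 := EuclideanSpace ℝ (Fin 2)

theorem normsq (v : E2) : ‖v‖ ^ 2 = (v 0) ^ 2 + (v 1) ^ 2 := by
  rw [EuclideanSpace.norm_sq_eq, Fin.sum_univ_two]
  simp

theorem decomp (x y : ℝ) : (WithLp.toLp 2 ![x, y] : E2)
    = x • (WithLp.toLp 2 ![1, 0] : E2) + y • (WithLp.toLp 2 ![0, 1] : E2) := by
  ext i
  fin_cases i <;> simp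

theorem main : TaskIso := by
  intro f hf c hc
  obtain ⟨φ, hφ⟩ := hf c hc
  set L := φ.toRealLinearIsometryEquiv with hL
  have hLv : ∀ v, φ v = L v + φ 0 := by
    intro v
    rw [hL, IsometryEquiv.toRealLinearIsometryEquiv_apply]
    abel
  set e0 : E2 := WithLp.toLp 2 ![1, 0] with he0
  set e1 : E2 := WithLp.toLp 2 ![0, 1] with he1
  have hn : ∀ v : E2, (L v 0) ^ 2 + (L v 1) ^ 2 = (v 0) ^ 2 + (v 1) ^ 2 := by
    intro v
    rw [← normsq, ← normsq, L.norm_map]
  set a : ℝ := L e0 0 with ha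
  set a' : ℝ := L e0 1 with ha'
  set b : ℝ := L e1 0 with hb
  set b' : ℝ := L e1 1 with hb'
  have h1 : a ^ 2 + a' ^ 2 = 1 := by
    have := hn e0
    simpa [he0] using this
  have h2 : b ^ 2 + b' ^ 2 = 1 := by
    have := hn e1
    simpa [he1] using this
  have h3 : a * b + a' * b' = 0 := by
    have h := hn (e0 + e1)
    rw [map_add] at h
    simp only [PiLp.add_apply] at h
    rw [← ha, ← ha', ← hb, ← hb'] at h
    have h4 : (e0 0 + e1 0) = 1 := by simp [he0, he1]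
    have h5 : (e0 1 + e1 1) = 1 := by simp [he0, he1]
    rw [h4, h5] at h
    nlinarith
  have hc0 : ∀ x y : ℝ, φ (WithLp.toLp 2 ![x, y]) 0 = a * x + b * y + φ 0 0 := by
    intro x y
    rw [hLv, decomp x y, map_add, map_smul, map_smul]
    simp only [PiLp.add_apply, PiLp.smul_apply, smul_eq_mul]
    rw [← he0, ← he1, ← ha, ← hb]
    ring
  have hc1 : ∀ x y : ℝ, φ (WithLp.toLp 2 ![x, y]) 1 = a' * x + b' * y + φ 0 1 := by
    intro x y
    rw [hLv, decomp x y, map_add, map_smul, map_smul]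
    simp only [PiLp.add_apply, PiLp.smul_apply, smul_eq_mul]
    rw [← he0, ← he1, ← ha', ← hb']
    ring
  have hdet : (a * b' - b * a') ^ 2 = 1 := by
    have : (a * b' - b * a') ^ 2 = (a ^ 2 + a' ^ 2) * (b ^ 2 + b' ^ 2) - (a * b + a' * b') ^ 2 := by
      ring
    rw [this, h1, h2, h3]; norm_num
  have hdet0 : a * b' - b * a' ≠ 0 := by
    intro h; rw [h] at hdet; norm_num at hdet
  have hax : ∀ x : ℝ, ax ![a, c * b, φ 0 0, a', c * b', φ 0 1] x (f x)
      = φ (WithLp.toLp 2 ![x, c * f x]) 0 := by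
    intro x
    rw [hc0]
    simp only [ax]
    simp
    ring
  have hay : ∀ x : ℝ, ay ![a, c * b, φ 0 0, a', c * b', φ 0 1] x (f x)
      = φ (WithLp.toLp 2 ![x, c * f x]) 1 := by
    intro x
    rw [hc1]
    simp only [ay]
    simp
    ring
  refine ⟨![a, c * b, φ 0 0, a', c * b', φ 0 1], ⟨?_, ?_, ?_⟩, ?_, ?_, ?_⟩
  · simp only [dt]
    simp
    intro h
    have h6 : c * (a * b' - b * a') = 0 := by linarith
    rcases mul_eq_zero.mp h6 with h7 | h7
    · exact hc.ne' h7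
    · exact hdet0 h7
  · intro x
    have hm : φ (WithLp.toLp 2 ![x, c * f x]) ∈
        Set.range (fun x : ℝ => (WithLp.toLp 2 ![x, f x] : EuclideanSpace ℝ (Fin 2))) := by
      rw [← hφ]
      exact ⟨_, ⟨x, rfl⟩, rfl⟩
    obtain ⟨x', hx'⟩ := hm
    rw [hax, hay, ← hx']
    simp
  · intro x'
    have hm : (WithLp.toLp 2 ![x', f x'] : EuclideanSpace ℝ (Fin 2)) ∈
        φ '' Set.range (fun x : ℝ => (WithLp.toLp 2 ![x, c * f x] : EuclideanSpace ℝ (Fin 2))) := by
      rw [hφ]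
      exact ⟨x', rfl⟩
    obtain ⟨_, ⟨x, rfl⟩, hx⟩ := hm
    refine ⟨x, ?_⟩
    show ax _ x (f x) = x'
    rw [hax]
    have := congrArg (fun v : E2 => v 0) hx
    simpa using this
  · simp
    linarith
  · simp
    have : (c * b) ^ 2 + (c * b') ^ 2 = c ^ 2 * (b ^ 2 + b' ^ 2) := by ring
    rw [this, h2, mul_one]
  · simp
    have : a * (c * b) + a' * (c * b') = c * (a * b + a' * b') := by ring
    rw [this, h3, mul_zero]

end IsoTask

theorem t_TaskIso : H12VR.TaskIso := IsoTask.main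

end H12VR
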